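import Pool.Agent.helper53.BND.SpecT

/-!
Row TDN of project bnd: the functions of finite level are dense.
-/

set_option autoImplicit false

open Finset

namespace Pool.Agent.BND

open Pool.Agent.CZ Pool.Agent.PV Pool.Agent.PVH

/-- `f` is a function of the level `k` -/
def TDN_lev (B : BS) (k : ℕ) (f : C(↥(XS B), ℝ)) : Prop :=
  ∃ F : Am → ℝ, ContinuousOn F (FS (B.L k)) ∧ ∀ y, f y = F (y.1 k)

lemma TDN_succ {B : BS} {p : ℕ → Am → Am} (hp : IsMp B B.st p) {k : ℕ} {f : C(↥(XS B), ℝ)}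
    (hf : TDN_lev B k f) : TDN_lev B (k + 1) f := by
  obtain ⟨F, hF, hfF⟩ := hf
  refine ⟨fun y => F (p k y), hF.comp (hp.cont k) (hp.maps k), fun y => ?_⟩
  rw [hfF y]
  obtain ⟨e, s, i, he, hs, hi, h⟩ := (y.2 (k + 1)).1
  have h1 := (y.2 k).2 e s i he hs hi h
  show F (y.1 k) = F (p k (y.1 (k + 1)))
  rw [h1, h, hp.val k e s i he hs hi]

lemma TDN_le {B : BS} {p : ℕ → Am → Am} (hp : IsMp B B.st p) {k : ℕ} {f : C(↥(XS B), ℝ)}
    (hf : TDN_lev B k f) {l : ℕ} (hl : k ≤ l) : TDN_lev B l f := by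
  induction l, hl using Nat.le_induction with
  | base => exact hf
  | succ l _ ih => exact TDN_succ hp ih

/-- The algebra of the functions of finite level. -/
def TDN_alg (B : BS) {p : ℕ → Am → Am} (hp : IsMp B B.st p) : Subalgebra ℝ C(↥(XS B), ℝ) where
  carrier := {f | ∃ k, TDN_lev B k f}
  mul_mem' := by
    rintro f g ⟨k, hf⟩ ⟨l, hg⟩
    obtain ⟨F, hF, hfF⟩ := TDN_le hp hf (le_max_left k l)
    obtain ⟨G, hG, hgG⟩ := TDN_le hp hg (le_max_right k l)
    exact ⟨max k l, fun y => F y * G y, hF.mul hG, fun y => by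
      rw [ContinuousMap.mul_apply, hfF y, hgG y]⟩
  add_mem' := by
    rintro f g ⟨k, hf⟩ ⟨l, hg⟩
    obtain ⟨F, hF, hfF⟩ := TDN_le hp hf (le_max_left k l)
    obtain ⟨G, hG, hgG⟩ := TDN_le hp hg (le_max_right k l)
    exact ⟨max k l, fun y => F y + G y, hF.add hG, fun y => by
      rw [ContinuousMap.add_apply, hfF y, hgG y]⟩
  algebraMap_mem' := fun r => ⟨0, fun _ => r, continuousOn_const, fun y => rfl⟩

theorem TDN (hPMA : PMA_stmt) (hXCP : XCP_stmt) (hEMC : EMC_stmt) : TDN_stmt := by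
  intro B M hB f ε hε
  obtain ⟨p, q, r, hp, _, _⟩ := hPMA B M hB
  have : CompactSpace ↥(XS B) := isCompact_iff_compactSpace.mp (hXCP B M hB).1
  have hsep : (TDN_alg B hp).SeparatesPoints := by
    intro y y' hne
    obtain ⟨k, hk⟩ : ∃ k, y.1 k ≠ y'.1 k := by
      by_contra hcon
      push Not at hcon
      exact hne (Subtype.ext (funext hcon))
    obtain ⟨c, hc⟩ : ∃ c, y.1 k c ≠ y'.1 k c := by
      by_contra hcon
      push Not at hcon
      exact hk (funext hcon)
    have hcont : Continuous fun z : ↥(XS B) => z.1 k c :=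
      (continuous_apply c).comp ((continuous_apply k).comp continuous_subtype_val)
    by_cases hre : (y.1 k c).re = (y'.1 k c).re
    · refine ⟨fun z => (z.1 k c).im, ⟨⟨fun z => (z.1 k c).im, Complex.continuous_im.comp hcont⟩,
        ⟨k, fun z => (z c).im, ?_, fun z => rfl⟩, rfl⟩, ?_⟩
      · exact (Complex.continuous_im.comp (continuous_apply c)).continuousOn
      · intro him
        exact hc (Complex.ext hre him)
    · refine ⟨fun z => (z.1 k c).re, ⟨⟨fun z => (z.1 k c).re, Complex.continuous_re.comp hcont⟩,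
        ⟨k, fun z => (z c).re, ?_, fun z => rfl⟩, rfl⟩, hre⟩
      exact (Complex.continuous_re.comp (continuous_apply c)).continuousOn
  obtain ⟨⟨f', k, F, hF, hfF⟩, hg⟩ :=
    ContinuousMap.exists_mem_subalgebra_near_continuousMap_of_separatesPoints
      (TDN_alg B hp) hsep f ε hε
  obtain ⟨C, hC⟩ := (hEMC (B.L k) (hB.lv k)).exists_bound_of_continuousOn hF
  refine ⟨k, F, f', max C 1, lt_max_of_lt_right one_pos, hF, fun y hy => ?_, hfF, fun y => ?_⟩
  · have h1 := hC y hy
    rw [Real.norm_eq_abs] at h1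
    exact h1.trans (le_max_left _ _)
  · have h1 := ContinuousMap.norm_coe_le_norm (f' - f) y
    rw [ContinuousMap.sub_apply, Real.norm_eq_abs] at h1
    rw [abs_sub_comm]
    exact h1.trans hg.le

end Pool.Agent.BND
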