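import Pool.Agent.helper53.BND.SpecT

/-!
Row TKL of project bnd.
-/

set_option autoImplicit false

open Finset

namespace Pool.Agent.BND

lemma TKL_step {H : Type} [AddCommGroup H] {B : BS} {M : ℕ → ℕ → ℕ → ℕ} {P : H → Prop} {g : H}
    {th : ℕ → ℕ → H} {H' : AddSubgroup H} (hT : IsTh B M P g th H') (m : ℕ) (z : ℕ → ℤ) :
    ∑ v' ∈ range (B.L (m + 1)).n, (∑ v ∈ range (B.L m).n, (M m v' v : ℤ) * z v) • th (m + 1) v' =
      ∑ v ∈ range (B.L m).n, z v • th m v := by
  have h1 : ∀ v ∈ range (B.L m).n, z v • th m v =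
      ∑ v' ∈ range (B.L (m + 1)).n, ((M m v' v : ℤ) * z v) • th (m + 1) v' := by
    intro v hv
    rw [hT.th_eq m v (mem_range.mp hv), Finset.smul_sum]
    apply Finset.sum_congr rfl
    intro v' _
    rw [mul_comm, mul_smul, natCast_zsmul]
  rw [Finset.sum_congr rfl h1, Finset.sum_comm]
  apply Finset.sum_congr rfl
  intro v' _
  rw [Finset.sum_smul]

/-- the sequence of the multiplicities on the levels `m' + j` -/
def TKL_cc (B : BS) (M : ℕ → ℕ → ℕ → ℕ) (m' : ℕ) (c : ℕ → ℕ) : ℕ → ℕ → ℕ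
  | 0 => c
  | j + 1 => fun v' => ∑ v ∈ range (B.L (m' + j)).n, M (m' + j) v' v * TKL_cc B M m' c j v

theorem TKL : TKL_stmt := by
  intro H _ B M P g th H' hT m₀ z hz hP
  obtain ⟨m', c, hc⟩ := hT.span _ hP
  have hS : ∀ m, m₀ ≤ m → ∑ v ∈ range (B.L m).n, z m v • th m v =
      ∑ v ∈ range (B.L m₀).n, z m₀ v • th m₀ v := by
    intro m hm
    induction m, hm using Nat.le_induction with
    | base => rfl
    | succ m hm ih =>
      rw [← ih, ← TKL_step hT m (z m)]
      apply Finset.sum_congr rfl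
      intro v' hv'
      rw [hz m v' hm (mem_range.mp hv')]
  have hC : ∀ j, ∑ v ∈ range (B.L (m' + j)).n, (TKL_cc B M m' c j v : ℤ) • th (m' + j) v =
      -∑ v ∈ range (B.L m₀).n, z m₀ v • th m₀ v := by
    intro j
    induction j with
    | zero =>
      rw [hc]
      apply Finset.sum_congr rfl
      intro v _
      rw [natCast_zsmul]
      rfl
    | succ j ih =>
      rw [← ih, ← TKL_step hT (m' + j) (fun v => (TKL_cc B M m' c j v : ℤ))]
      show ∑ v ∈ range (B.L (m' + j + 1)).n, (TKL_cc B M m' c (j + 1) v : ℤ) • th (m' + j + 1) v = _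
      apply Finset.sum_congr rfl
      intro v' _
      have h1 : (TKL_cc B M m' c (j + 1) v' : ℤ) =
          ∑ v ∈ range (B.L (m' + j)).n, (M (m' + j) v' v : ℤ) * (TKL_cc B M m' c j v : ℤ) := by
        show ((∑ v ∈ range (B.L (m' + j)).n, M (m' + j) v' v * TKL_cc B M m' c j v : ℕ) : ℤ) = _
        push_cast
        rfl
      rw [h1]
  refine ⟨max m₀ m' + 1, by omega, ?_⟩
  intro m hm v' hv'
  obtain ⟨m2, rfl⟩ : ∃ m2, m = m2 + 1 := ⟨m - 1, by omega⟩
  obtain ⟨j, hj⟩ : ∃ j, m2 = m' + j := ⟨m2 - m', by omega⟩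
  have h0 : m₀ ≤ m2 := by omega
  have h1 : ∑ v ∈ range (B.L m2).n, (z m2 v + (TKL_cc B M m' c j v : ℤ)) • th m2 v = 0 := by
    have h2 := hS m2 h0
    have h3 := hC j
    rw [← hj] at h3
    simp only [add_smul]
    rw [Finset.sum_add_distrib, h2, h3, add_neg_cancel]
  have h2 := hT.kill m2 (fun v => z m2 v + (TKL_cc B M m' c j v : ℤ)) h1 v' hv'
  have h3 : ∑ v ∈ range (B.L m2).n, (M m2 v' v : ℤ) * z m2 v +
      ∑ v ∈ range (B.L m2).n, (M m2 v' v : ℤ) * (TKL_cc B M m' c j v : ℤ) = 0 := by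
    rw [← Finset.sum_add_distrib, ← h2]
    apply Finset.sum_congr rfl
    intro v _
    ring
  have h4 : 0 ≤ ∑ v ∈ range (B.L m2).n, (M m2 v' v : ℤ) * (TKL_cc B M m' c j v : ℤ) := by
    apply Finset.sum_nonneg
    intro v _
    positivity
  rw [hz m2 v' h0 hv']
  linarith

end Pool.Agent.BND
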