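import Pool.Agent.helper53.BND.SpecT

/-!
Row TMM of project bnd: a functional below the affine functions is the evaluation at a point.
-/

set_option autoImplicit false

open Finset

namespace Pool.Agent.BND

open Pool.Agent.CZ Pool.Agent.PV Pool.Agent.PVH

lemma TMM_fin {E : Type} [AddCommGroup E] [Module ℝ E] [TopologicalSpace E] {K : Set E}
    (hK : IsCompact K) (hKc : Convex ℝ K) {V : Type} [AddCommGroup V] [Module ℝ V]
    (Φ : V →ₗ[ℝ] C(K, ℝ)) (ψ : V →ₗ[ℝ] ℝ) (hA : ∀ f, IsAff (Φ f)) (hle : ∀ f, ∃ t, ψ f ≤ Φ f t)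
    (S : Finset V) : ∃ t, ∀ f ∈ S, ψ f = Φ f t := by
  classical
  by_contra hcon
  push Not at hcon
  have : CompactSpace K := isCompact_iff_compactSpace.mp hK
  set Y : K → (↥S → ℝ) := fun t f => Φ f.1 t with hY
  have hYc : Continuous Y := continuous_pi fun f => (Φ f.1).continuous
  have hC1 : IsCompact (Set.range Y) := isCompact_range hYc
  have hC2 : Convex ℝ (Set.range Y) := by
    rintro _ ⟨t, rfl⟩ _ ⟨t', rfl⟩ a b ha hb hab
    have hmem : a • (t : E) + b • (t' : E) ∈ K := hKc t.2 t'.2 ha hb hab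
    refine ⟨⟨_, hmem⟩, ?_⟩
    funext f
    simp only [hY, Pi.add_apply, Pi.smul_apply, smul_eq_mul]
    exact (hA f.1).aff t t' ⟨_, hmem⟩ a b ha hb hab rfl
  have hnot : (fun f : ↥S => ψ f.1) ∉ Set.range Y := by
    rintro ⟨t, ht⟩
    obtain ⟨f, hf, hne⟩ := hcon t
    exact hne (congrFun ht ⟨f, hf⟩).symm
  obtain ⟨L, u, hL1, hL2⟩ := geometric_hahn_banach_closed_point hC2 hC1.isClosed hnot
  have hL : ∀ x : ↥S → ℝ, L x = ∑ f, x f * L (Pi.single f 1) := by
    intro x
    conv_lhs => rw [← Finset.univ_sum_single x]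
    rw [map_sum]
    apply Finset.sum_congr rfl
    intro f _
    have h1 : Pi.single f (x f) = x f • (Pi.single f 1 : ↥S → ℝ) := by
      rw [← Pi.single_smul, smul_eq_mul, mul_one]
    rw [h1, map_smul, smul_eq_mul]
  set f₀ : V := ∑ f : ↥S, L (Pi.single f 1) • f.1 with hf₀
  obtain ⟨t, ht⟩ := hle f₀
  have h1 : ψ f₀ = L (fun f : ↥S => ψ f.1) := by
    rw [hL, hf₀, map_sum]
    apply Finset.sum_congr rfl
    intro f _
    rw [map_smul, smul_eq_mul, mul_comm]
  have h2 : Φ f₀ t = L (Y t) := by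
    rw [hL, hf₀, map_sum, ContinuousMap.sum_apply]
    apply Finset.sum_congr rfl
    intro f _
    rw [map_smul, ContinuousMap.smul_apply, smul_eq_mul, mul_comm]
  rw [h1, h2] at ht
  have h3 := hL1 (Y t) ⟨t, rfl⟩
  linarith

theorem TMM : TMM_stmt := by
  intro E _ _ _ K hK hKc V _ _ Φ ψ hA hle
  have : CompactSpace K := isCompact_iff_compactSpace.mp hK
  have h1 : (⋂ f : V, {t : K | ψ f = Φ f t}).Nonempty := by
    rw [← Set.univ_inter (⋂ f : V, {t : K | ψ f = Φ f t})]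
    apply isCompact_univ.inter_iInter_nonempty
    · intro f
      exact isClosed_eq continuous_const (Φ f).continuous
    · intro S
      obtain ⟨t, ht⟩ := TMM_fin hK hKc Φ ψ hA hle S
      exact ⟨t, trivial, Set.mem_iInter₂.mpr ht⟩
  obtain ⟨t, ht⟩ := h1
  exact ⟨t, fun f => Set.mem_iInter.mp ht f⟩

end Pool.Agent.BND
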